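import Mathlib
import Pool.Agent.H75.Perc.Explore
import Pool.Agent.H63.Bulk.HalfData

/-!
# Arcs of the interfaces in the half plane and the matching of the strands
-/

set_option autoImplicit false

namespace Pool.Agent.H19.Q1

open Pool.Agent.H75.Perc (nx nxC nxO lab ty ty_cases pv pv_nx nx_injective)
open Pool.Agent.H65.Perc
open Pool.Agent.H63.Bulk

/-- the exploration map for a predicate `P` on the labels (`true` = open) -/
def nxp (P : ℤ × ℤ → Bool) (c : ℤ × ℤ) : ℤ × ℤ := if P (lab c) = true then nxO c else nxC c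

theorem nx_eq_nxp (ω : Finset (ℤ × ℤ)) : nx ω = nxp (fun e => decide (e ∈ ω)) := by
  funext c
  simp [nx, nxp]

/-- level of a corner -/
def sg (c : ℤ × ℤ) : ℤ := c.1 + c.2

/-- the corner number `k` on the line `x + y = 0` -/
def cr (k : ℤ) : ℤ × ℤ := (k + 1, -k)

theorem sg_cr (k : ℤ) : sg (cr k) = 1 := by simp [sg, cr]

theorem eq_cr {c : ℤ × ℤ} (h : sg c = 1) : c = cr (c.1 - 1) := by
  unfold sg at h; unfold cr
  refine Prod.ext ?_ ?_ <;> simp only <;> omega

/-- the vertex of a corner -/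
def vv (c : ℤ × ℤ) : ℕ × ℤ := ((c.1 / 2 + c.2 / 2).toNat, c.1 / 2 - c.2 / 2)

/-- the face of a corner -/
def ff (c : ℤ × ℤ) : ℕ × ℤ :=
  (((c.1 + 1) / 2 + (c.2 + 1) / 2 - 1).toNat, (c.1 + 1) / 2 - (c.2 + 1) / 2)

/-- the rows agree with `P` on the labels of `E` above the line `x + y = 0` -/
def Agr {L : ℕ} [NeZero L] (E : Set (ℤ × ℤ)) (P : ℤ × ℤ → Bool) (M : ℕ)
    (rows : ℕ → Fin L → Bool) : Prop :=
  ∀ e ∈ E, (e.1 + e.2) % 2 = 1 → 1 ≤ e.1 + e.2 → (e.1 + e.2 - 1) / 2 < M ∧
    rows ((e.1 + e.2 - 1) / 2).toNat (modFin ((e.1 - e.2 - 1) / 2)) =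
      (if e.2 % 2 = 0 then !(P e) else P e)

theorem lab_odd (c : ℤ × ℤ) : ((lab c).1 + (lab c).2) % 2 = 1 := by
  rcases ty_cases c with ⟨-, h1, h2, h3, -, -⟩ | ⟨-, h1, h2, h3, -, -⟩ | ⟨-, h1, h2, h3, -, -⟩ |
    ⟨-, h1, h2, h3, -, -⟩ <;> rw [h3] <;> simp only <;> omega

theorem lab_sum {c : ℤ × ℤ} (h : 2 ≤ sg c ∨ (sg c = 1 ∧ c.1 % 2 = 1)) :
    1 ≤ (lab c).1 + (lab c).2 := by
  unfold sg at h
  rcases ty_cases c with ⟨-, h1, h2, h3, -, -⟩ | ⟨-, h1, h2, h3, -, -⟩ | ⟨-, h1, h2, h3, -, -⟩ |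
    ⟨-, h1, h2, h3, -, -⟩ <;> rw [h3] <;> simp only <;> omega

/-- one step above the line -/
theorem step {L : ℕ} [NeZero L] {E : Set (ℤ × ℤ)} {P : ℤ × ℤ → Bool} {M : ℕ} {rows : ℕ → Fin L → Bool}
    (hA : Agr E P M rows) {c : ℤ × ℤ} (hc : lab c ∈ E) (h1 : 1 ≤ (lab c).1 + (lab c).2) :
    Relation.EqvGen (Lk.EA M rows) (vv c) (vv (nxp P c)) ∧
      Relation.EqvGen (Lk.EA M rows) (ff c) (ff (nxp P c)) := by
  obtain ⟨hM, hr⟩ := hA _ hc (lab_odd c) h1
  set r : ℕ := (((lab c).1 + (lab c).2 - 1) / 2).toNat with hrdef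
  set k : ℤ := ((lab c).1 - (lab c).2 - 1) / 2 with hkdef
  have hrM : r < M := by omega
  have htrue : rows r (modFin k) = true →
      Relation.EqvGen (Lk.EA M rows) (r + 1, k) (r, k + 1) := fun h =>
    Relation.EqvGen.rel _ _ (Or.inl ⟨r, hrM, k, Or.inl ⟨h, rfl, rfl⟩⟩)
  have hfalse : rows r (modFin k) = false →
      Relation.EqvGen (Lk.EA M rows) (r, k) (r + 1, k + 1) := fun h =>
    Relation.EqvGen.rel _ _ (Or.inl ⟨r, hrM, k, Or.inr ⟨h, rfl, rfl⟩⟩)
  obtain ⟨a, b⟩ := c
  unfold nxp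
  have refl' : ∀ {x y : ℕ × ℤ}, x = y → Relation.EqvGen (Lk.EA M rows) x y := by
    rintro x y rfl
    exact Relation.EqvGen.refl _
  rcases ty_cases (a, b) with ⟨-, a1, a2, a3, a4, a5⟩ | ⟨-, a1, a2, a3, a4, a5⟩ |
      ⟨-, a1, a2, a3, a4, a5⟩ | ⟨-, a1, a2, a3, a4, a5⟩ <;>
    simp only at a1 a2 a3 a4 a5 <;> rw [a3, a4, a5] <;> rw [a3] at hr hrdef hkdef h1 <;>
    simp only at hr hrdef hkdef h1
  -- SW
  · have e2 : ¬ (b - 1) % 2 = 0 := by omega
    rw [if_neg e2] at hr
    by_cases hw : P (a, b - 1) = true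
    · rw [if_pos hw]
      have hr' : rows r (modFin k) = true := by rw [hr]; simpa using hw
      refine ⟨?_, refl' ?_⟩
      · have h := htrue hr'
        have x1 : vv (a, b) = (r + 1, k) := by
          unfold vv; refine Prod.ext ?_ ?_ <;> simp only <;> omega
        have x2 : vv (a, b - 1) = (r, k + 1) := by
          unfold vv; refine Prod.ext ?_ ?_ <;> simp only <;> omega
        rw [x1, x2]; exact h
      · unfold ff; refine Prod.ext ?_ ?_ <;> simp only <;> omega
    · rw [if_neg hw]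
      have hr' : rows r (modFin k) = false := by rw [hr]; simpa using hw
      refine ⟨refl' ?_, ?_⟩
      · unfold vv; refine Prod.ext ?_ ?_ <;> simp only <;> omega
      · have h := hfalse hr'
        have x1 : ff (a, b) = (r, k) := by
          unfold ff; refine Prod.ext ?_ ?_ <;> simp only <;> omega
        have x2 : ff (a + 1, b) = (r + 1, k + 1) := by
          unfold ff; refine Prod.ext ?_ ?_ <;> simp only <;> omega
        rw [x1, x2]; exact h
  -- SE
  · rw [if_pos a2] at hr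
    by_cases hw : P (a, b) = true
    · rw [if_pos hw]
      have hr' : rows r (modFin k) = false := by rw [hr]; simpa using hw
      refine ⟨?_, refl' ?_⟩
      · have h := hfalse hr'
        have x1 : vv (a, b) = (r, k) := by
          unfold vv; refine Prod.ext ?_ ?_ <;> simp only <;> omega
        have x2 : vv (a + 1, b) = (r + 1, k + 1) := by
          unfold vv; refine Prod.ext ?_ ?_ <;> simp only <;> omega
        rw [x1, x2]; exact h
      · unfold ff; refine Prod.ext ?_ ?_ <;> simp only <;> omega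
    · rw [if_neg hw]
      have hr' : rows r (modFin k) = true := by rw [hr]; simpa using hw
      refine ⟨refl' ?_, ?_⟩
      · unfold vv; refine Prod.ext ?_ ?_ <;> simp only <;> omega
      · have h := htrue hr'
        have x1 : ff (a, b) = (r, k + 1) := by
          unfold ff; refine Prod.ext ?_ ?_ <;> simp only <;> omega
        have x2 : ff (a, b + 1) = (r + 1, k) := by
          unfold ff; refine Prod.ext ?_ ?_ <;> simp only <;> omega
        rw [x1, x2]; exact h.symm _ _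
  -- NE
  · have e2 : ¬ b % 2 = 0 := by omega
    rw [if_neg e2] at hr
    by_cases hw : P (a - 1, b) = true
    · rw [if_pos hw]
      have hr' : rows r (modFin k) = true := by rw [hr]; simpa using hw
      refine ⟨?_, refl' ?_⟩
      · have h := htrue hr'
        have x1 : vv (a, b) = (r, k + 1) := by
          unfold vv; refine Prod.ext ?_ ?_ <;> simp only <;> omega
        have x2 : vv (a, b + 1) = (r + 1, k) := by
          unfold vv; refine Prod.ext ?_ ?_ <;> simp only <;> omega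
        rw [x1, x2]; exact h.symm _ _
      · unfold ff; refine Prod.ext ?_ ?_ <;> simp only <;> omega
    · rw [if_neg hw]
      have hr' : rows r (modFin k) = false := by rw [hr]; simpa using hw
      refine ⟨refl' ?_, ?_⟩
      · unfold vv; refine Prod.ext ?_ ?_ <;> simp only <;> omega
      · have h := hfalse hr'
        have x1 : ff (a, b) = (r + 1, k + 1) := by
          unfold ff; refine Prod.ext ?_ ?_ <;> simp only <;> omega
        have x2 : ff (a - 1, b) = (r, k) := by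
          unfold ff; refine Prod.ext ?_ ?_ <;> simp only <;> omega
        rw [x1, x2]; exact h.symm _ _
  -- NW
  · have e2 : (b - 1) % 2 = 0 := by omega
    rw [if_pos e2] at hr
    by_cases hw : P (a - 1, b - 1) = true
    · rw [if_pos hw]
      have hr' : rows r (modFin k) = false := by rw [hr]; simpa using hw
      refine ⟨?_, refl' ?_⟩
      · have h := hfalse hr'
        have x1 : vv (a, b) = (r + 1, k + 1) := by
          unfold vv; refine Prod.ext ?_ ?_ <;> simp only <;> omega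
        have x2 : vv (a - 1, b) = (r, k) := by
          unfold vv; refine Prod.ext ?_ ?_ <;> simp only <;> omega
        rw [x1, x2]; exact h.symm _ _
      · unfold ff; refine Prod.ext ?_ ?_ <;> simp only <;> omega
    · rw [if_neg hw]
      have hr' : rows r (modFin k) = true := by rw [hr]; simpa using hw
      refine ⟨refl' ?_, ?_⟩
      · unfold vv; refine Prod.ext ?_ ?_ <;> simp only <;> omega
      · have h := htrue hr'
        have x1 : ff (a, b) = (r + 1, k) := by
          unfold ff; refine Prod.ext ?_ ?_ <;> simp only <;> omega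
        have x2 : ff (a, b - 1) = (r, k + 1) := by
          unfold ff; refine Prod.ext ?_ ?_ <;> simp only <;> omega
        rw [x1, x2]; exact h

/-- how the level changes in a step -/
theorem sg_nx (P : ℤ × ℤ → Bool) (c : ℤ × ℤ) :
    (sg (nxp P c) = sg c + 1 ∧ (sg c % 2 = 1 → c.1 % 2 = 1) ∧
      (sg c % 2 = 0 → (nxp P c).1 % 2 = 1)) ∨
    (sg (nxp P c) = sg c - 1 ∧ (sg c % 2 = 1 → c.1 % 2 = 0) ∧
      (sg c % 2 = 0 → (nxp P c).1 % 2 = 0)) := by
  obtain ⟨a, b⟩ := c
  unfold nxp sg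
  rcases ty_cases (a, b) with ⟨-, a1, a2, a3, a4, a5⟩ | ⟨-, a1, a2, a3, a4, a5⟩ |
      ⟨-, a1, a2, a3, a4, a5⟩ | ⟨-, a1, a2, a3, a4, a5⟩ <;>
    simp only at a1 a2 a3 a4 a5 <;> rw [a3, a4, a5] <;> split_ifs <;> simp only <;> omega

/-- the matching is determined by the connections along the two sides of an arc -/
theorem half_match {L : ℤ} {τ : ℤ → ℤ} {R : ℤ → ℤ → Prop} (H : Half L τ R) {k k' : ℤ}
    (h1 : R k (k' + 1)) (h2 : R (k + 1) k') : τ k = k' := by
  obtain ⟨z, hz, hz'⟩ := H.pot k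
  have e1 := hz _ _ h1
  have e2 := hz _ _ h2
  have e3 := hz' k
  have e4 := hz' k'
  have e5 := H.ne k
  rw [if_pos rfl] at e3
  by_contra hcon
  rw [if_neg (fun h => e5 h.symm)] at e3
  by_cases h5 : k' = k
  · rw [h5] at e1 e2
    omega
  · rw [if_neg h5] at e4
    by_cases h6 : k' = τ k
    · exact hcon h6.symm
    · rw [if_neg h6] at e4
      omega

/-- an arc above the line -/
theorem arc {L : ℕ} [NeZero L] {E : Set (ℤ × ℤ)} {P : ℤ × ℤ → Bool} {M : ℕ} {rows : ℕ → Fin L → Bool}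
    (hA : Agr E P M rows) {c : ℤ × ℤ} (h1 : sg c = 1) (h2 : c.1 % 2 = 1) (j : ℕ)
    (hj : ∀ i, 0 < i → i < j → 2 ≤ sg ((nxp P)^[i] c)) (hE : ∀ i < j, lab ((nxp P)^[i] c) ∈ E) :
    Relation.EqvGen (Lk.EA M rows) (vv c) (vv ((nxp P)^[j] c)) ∧
      Relation.EqvGen (Lk.EA M rows) (ff c) (ff ((nxp P)^[j] c)) := by
  induction j with
  | zero => exact ⟨Relation.EqvGen.refl _, Relation.EqvGen.refl _⟩
  | succ j ih =>
    obtain ⟨i1, i2⟩ := ih (fun i h3 h4 => hj i h3 (by omega)) (fun i h3 => hE i (by omega))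
    have h3 : 2 ≤ sg ((nxp P)^[j] c) ∨ (sg ((nxp P)^[j] c) = 1 ∧ ((nxp P)^[j] c).1 % 2 = 1) := by
      rcases Nat.eq_zero_or_pos j with rfl | hpos
      · right; exact ⟨h1, h2⟩
      · left; exact hj j hpos (by omega)
    obtain ⟨s1, s2⟩ := step hA (hE j (by omega)) (lab_sum h3)
    rw [Function.iterate_succ_apply']
    exact ⟨i1.trans _ _ _ s1, i2.trans _ _ _ s2⟩

theorem vv_cr_even {k : ℤ} (h : k % 2 = 0) : vv (cr k) = (0, k) ∧ ff (cr k) = (0, k + 1) := by
  unfold vv ff cr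
  constructor <;> refine Prod.ext ?_ ?_ <;> simp only <;> omega

theorem vv_cr_odd {k : ℤ} (h : k % 2 = 1) : vv (cr k) = (0, k + 1) ∧ ff (cr k) = (0, k) := by
  unfold vv ff cr
  constructor <;> refine Prod.ext ?_ ?_ <;> simp only <;> omega

/-- the arc which starts at the strand `k` ends at the strand `τ k` -/
theorem arc_match {n : ℕ} [NeZero (2 * n)] {E : Set (ℤ × ℤ)} {P : ℤ × ℤ → Bool} {M : ℕ}
    {rows : ℕ → Fin (2 * n) → Bool} (hA : Agr E P M rows) {k k' : ℤ} (hk : k % 2 = 0)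
    (hk' : k' % 2 = 1) (j : ℕ) (hj : ∀ i, 0 < i → i < j → 2 ≤ sg ((nxp P)^[i] (cr k)))
    (hE : ∀ i < j, lab ((nxp P)^[i] (cr k)) ∈ E) (he : (nxp P)^[j] (cr k) = cr k') :
    cov (runRows rows M (cap n M)) k = k' := by
  have h := arc hA (sg_cr k) (by unfold cr; simp only; omega) j hj hE
  rw [he, (vv_cr_even hk).1, (vv_cr_even hk).2, (vv_cr_odd hk').1, (vv_cr_odd hk').2] at h
  exact half_match (half_data n M rows) h.1 h.2

end Pool.Agent.H19.Q1
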