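import Mathlib
import Pool.Agent.H51.TA.Asym

/-!
# Exponential moments of the number of closed loops around a gap (stationary cylinder states)
-/

set_option autoImplicit false

open Filter Topology

namespace Pool.Agent.H19.Q1

open Pool.Agent.H65.Perc
open Pool.Agent.H51.TA
open Pool.Agent.H13.Pascal (lam lam_pos DD DD_eq DD_pascal)

theorem gdet_inv (n : ℕ) [NeZero n] {w : ℂ} (hw : w ≠ 0) : gdet n w = gdet n w⁻¹ := by
  obtain ⟨q, hq⟩ := exists_q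
  have h1 := Num_half n 0 hw hq
  have h2 := Num_half n 0 (inv_ne_zero hw) hq
  have h3 : (9 / 16 : ℂ) ^ (n * (2 * n - 1)) ≠ 0 := pow_ne_zero _ (by norm_num)
  have h4 : w⁻¹ + (w⁻¹)⁻¹ = w + w⁻¹ := by rw [inv_inv, add_comm]
  rw [h4, h1] at h2
  exact mul_left_cancel₀ h3 h2

theorem gdet_mul_inv (n : ℕ) {w : ℂ} (hw : w ≠ 0) : gdet n w * gdet n w⁻¹ =
    ∏ k : Fin (2 * n), (1 + (w + w⁻¹) * (lam (2 * n) k : ℂ) + (lam (2 * n) k : ℂ) ^ 2) := by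
  have h1 : gdet n w * gdet n w⁻¹ = DD (2 * n) w * DD (2 * n) w⁻¹ := by
    unfold gdet
    rw [DD_pascal, DD_pascal]
    have h : (w ^ n)⁻¹ * ((w⁻¹) ^ n)⁻¹ = 1 := by
      rw [inv_pow, inv_inv, inv_mul_cancel₀ (pow_ne_zero _ hw)]
    linear_combination ((w • (1 : Matrix (Fin (2 * n)) (Fin (2 * n)) ℂ) +
      Pool.Agent.H23.BO.pascal (2 * n)).det * (w⁻¹ • (1 : Matrix (Fin (2 * n)) (Fin (2 * n)) ℂ) +
      Pool.Agent.H23.BO.pascal (2 * n)).det) * h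
  rw [h1, DD_eq, DD_eq, ← Finset.prod_mul_distrib]
  refine Finset.prod_congr rfl fun k _ => ?_
  have h2 : w * w⁻¹ = 1 := mul_inv_cancel₀ hw
  linear_combination h2

/-- the generating function of the number of loops around the gap `g` -/
noncomputable def FF (n : ℕ) [NeZero n] (Ψ : (PX (2 * n) → ℝ) →ₗ[ℝ] ℝ) (g : ℤ) (W : ℝ) : ℝ :=
  Ψ (fun x => Ψ fun y => W ^ mc (toPat x).t (toPat y).t g)

theorem exists_w (W : ℝ) : ∃ w : ℂ, w ≠ 0 ∧ (W : ℂ) = w + w⁻¹ := by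
  obtain ⟨s, hs⟩ := IsAlgClosed.exists_eq_mul_self ((W : ℂ) ^ 2 - 4)
  have h1 : ((W + s) / 2 : ℂ) * ((W - s) / 2) = 1 := by linear_combination (-1 / 4) * (-hs)
  have h2 : ((W + s) / 2 : ℂ) ≠ 0 := by
    intro h
    rw [h, zero_mul] at h1
    exact zero_ne_one h1
  refine ⟨(W + s) / 2, h2, ?_⟩
  rw [← eq_inv_of_mul_eq_one_right h1]
  ring

/-- the square of the generating function is a product over the spectrum of the Pascal matrix -/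
theorem FF_sq (n : ℕ) [NeZero n] (Ψ : (PX (2 * n) → ℝ) →ₗ[ℝ] ℝ)
    (hlim : ∀ f : PX (2 * n) → ℝ, ∀ x, Tendsto (fun M : ℕ => (SX (1 / 2) ^ M) f x) atTop (𝓝 (Ψ f)))
    (g : ℤ) (W : ℝ) : FF n Ψ g W ^ 2 =
      ∏ k : Fin (2 * n), (1 + W * lam (2 * n) k + lam (2 * n) k ^ 2) /
        (1 + lam (2 * n) k + lam (2 * n) k ^ 2) := by
  obtain ⟨w, hw, hW⟩ := exists_w W
  obtain ⟨q, hq⟩ := exists_q
  have hq0 : q ≠ 0 := by rintro rfl; norm_num at hq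
  have h1 := law n Ψ hlim g W hw hW hq
  have h2 : ((FF n Ψ g W : ℝ) : ℂ) ^ 2 = gdet n w * gdet n w⁻¹ / (gdet n q * gdet n q⁻¹) := by
    rw [← gdet_inv n hw, ← gdet_inv n hq0, FF, h1]
    ring
  rw [gdet_mul_inv n hw, gdet_mul_inv n hq0, q_add_inv hq, ← hW, ← Finset.prod_div_distrib] at h2
  have h3 : ((FF n Ψ g W ^ 2 : ℝ) : ℂ) = ((∏ k : Fin (2 * n), (1 + W * lam (2 * n) k +
      lam (2 * n) k ^ 2) / (1 + lam (2 * n) k + lam (2 * n) k ^ 2) : ℝ) : ℂ) := by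
    push_cast
    rw [h2]
    refine Finset.prod_congr rfl fun k _ => ?_
    rw [one_mul]
  exact_mod_cast h3

theorem FF_nonneg (n : ℕ) [NeZero n] (Ψ : (PX (2 * n) → ℝ) →ₗ[ℝ] ℝ)
    (hlim : ∀ f : PX (2 * n) → ℝ, ∀ x, Tendsto (fun M : ℕ => (SX (1 / 2) ^ M) f x) atTop (𝓝 (Ψ f)))
    (x0 : PX (2 * n)) (g : ℤ) {W : ℝ} (hW : 0 ≤ W) : 0 ≤ FF n Ψ g W :=
  psi_nonneg hlim x0 _ fun _ => psi_nonneg hlim x0 _ fun _ => pow_nonneg hW _

/-- one factor -/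
theorem factor_le {l : ℝ} (hl : 0 < l) {W : ℝ} (hW : 1 ≤ W) :
    (1 + W * l + l ^ 2) / (1 + l + l ^ 2) ≤ ((1 + l ^ 2) / (1 + l + l ^ 2)) ^ (-(W - 1)) := by
  have hd : 0 < 1 + l + l ^ 2 := by positivity
  set p : ℝ := l / (1 + l + l ^ 2) with hp
  have h1 : (1 + W * l + l ^ 2) / (1 + l + l ^ 2) = 1 + (W - 1) * p := by
    rw [hp]; field_simp; ring
  have h2 : (1 + l ^ 2) / (1 + l + l ^ 2) = 1 - p := by
    rw [hp]; field_simp; ring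
  have hp1 : 0 < 1 - p := by rw [← h2]; positivity
  rw [h1, h2, Real.rpow_def_of_pos hp1]
  have h3 : Real.log (1 - p) ≤ -p := by
    have := Real.log_le_sub_one_of_pos hp1
    linarith
  have h4 : (W - 1) * p ≤ Real.log (1 - p) * (-(W - 1)) := by nlinarith
  calc 1 + (W - 1) * p ≤ Real.exp ((W - 1) * p) := by
        have := Real.add_one_le_exp ((W - 1) * p)
        linarith
    _ ≤ _ := Real.exp_le_exp.2 h4

theorem FF_le (n : ℕ) [NeZero n] (Ψ : (PX (2 * n) → ℝ) →ₗ[ℝ] ℝ)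
    (hlim : ∀ f : PX (2 * n) → ℝ, ∀ x, Tendsto (fun M : ℕ => (SX (1 / 2) ^ M) f x) atTop (𝓝 (Ψ f)))
    (x0 : PX (2 * n)) (g : ℤ) {W : ℝ} (hW : 1 ≤ W) :
    0 < FF n Ψ g 0 ∧ FF n Ψ g W ≤ FF n Ψ g 0 ^ (-(W - 1)) := by
  have h0 := FF_sq n Ψ hlim g 0
  have hpos : 0 < FF n Ψ g 0 := by
    have h1 : 0 < FF n Ψ g 0 ^ 2 := by
      rw [h0]
      refine Finset.prod_pos fun k _ => ?_
      have := lam_pos (2 * n) k
      positivity
    have h2 := FF_nonneg n Ψ hlim x0 g (le_refl (0 : ℝ))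
    rcases h2.lt_or_eq with h | h
    · exact h
    · rw [← h] at h1; norm_num at h1
  refine ⟨hpos, ?_⟩
  have h1 := FF_sq n Ψ hlim g W
  have h2 : FF n Ψ g W ^ 2 ≤ (FF n Ψ g 0 ^ (-(W - 1))) ^ 2 := by
    rw [← Real.rpow_natCast (FF n Ψ g 0 ^ (-(W - 1))) 2, ← Real.rpow_mul hpos.le,
      mul_comm, Real.rpow_mul hpos.le, Real.rpow_natCast, h0, h1,
      ← Real.finsetProd_rpow _ _ (fun k _ => by have := lam_pos (2 * n) k; positivity)]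
    refine Finset.prod_le_prod (fun k _ => ?_) (fun k _ => ?_)
    · have := lam_pos (2 * n) k
      positivity
    · rw [zero_mul, add_zero]
      exact factor_le (lam_pos (2 * n) k) hW
  exact le_of_sq_le_sq h2 (Real.rpow_nonneg hpos.le _)

/-- **the exponential moments of the number of loops around a gap** -/
theorem FF_bound : ∃ c : ℝ, 0 < c ∧ ∀ (n : ℕ) [NeZero n] (Ψ : (PX (2 * n) → ℝ) →ₗ[ℝ] ℝ),
    (∀ f : PX (2 * n) → ℝ, ∀ x, Tendsto (fun M : ℕ => (SX (1 / 2) ^ M) f x) atTop (𝓝 (Ψ f))) →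
    PX (2 * n) → ∀ (g : ℤ) (W : ℝ), 1 ≤ W →
      FF n Ψ g W ≤ c ^ (W - 1) * (n : ℝ) ^ (5 / 48 * (W - 1)) := by
  obtain ⟨c, C, hc, hC, h⟩ := one_arm
  refine ⟨c⁻¹, inv_pos.2 hc, fun n _ Ψ hlim x0 g W hW => ?_⟩
  have hn : (0 : ℝ) < n := by exact_mod_cast Nat.pos_of_ne_zero (NeZero.ne n)
  obtain ⟨hpos, h1⟩ := FF_le n Ψ hlim x0 g hW
  have h2 : c * (n : ℝ) ^ (-(5 / 48) : ℝ) ≤ FF n Ψ g 0 := (h n Ψ hlim x0 g).1
  have h3 : 0 < c * (n : ℝ) ^ (-(5 / 48) : ℝ) := by positivity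
  refine h1.trans ?_
  refine (Real.rpow_le_rpow_of_nonpos h3 h2 (by linarith)).trans (le_of_eq ?_)
  rw [Real.mul_rpow hc.le (by positivity), ← Real.rpow_mul hn.le, Real.rpow_neg hc.le,
    Real.inv_rpow hc.le]
  congr 2
  ring

end Pool.Agent.H19.Q1
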