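import Mathlib
import Pool.Agent.H63.Bulk.Law
import Pool.Agent.H63.Bulk.Mc
import Pool.Agent.H19.Q1.LoopArc
import Pool.Agent.H19.Q1.LoopMoment

/-!
# Closed interfaces and the loops of the glued matchings
-/

set_option autoImplicit false

open MeasureTheory Filter Topology

namespace Pool.Agent.H19.Q1

open Pool.Agent.H75.Perc (nx nxC nxO lab ty ty_cases pv pv_nx nx_injective)
open Pool.Agent.H65.Perc
open Pool.Agent.H63.Bulk
open Pool.Agent.H51.TA (Loop loopsAround mc)

/-! ### orbits -/

theorem nxp_injective (P : ℤ × ℤ → Bool) : Function.Injective (nxp P) := by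
  intro c c' h
  set ω : Finset (ℤ × ℤ) := ({lab c, lab c'} : Finset (ℤ × ℤ)).filter (fun e => P e = true) with hω
  have h1 : nx ω c = nxp P c := by
    unfold nx nxp
    have : lab c ∈ ω ↔ P (lab c) = true := by simp [hω]
    simp only [this]
  have h2 : nx ω c' = nxp P c' := by
    unfold nx nxp
    have : lab c' ∈ ω ↔ P (lab c') = true := by simp [hω]
    simp only [this]
  exact nx_injective ω (by rw [h1, h2, h])

/-- the interface which starts at the corner `c` -/
def orbS (P : ℤ × ℤ → Bool) (c : ℤ × ℤ) : Set (ℤ × ℤ) := Set.range (fun i : ℕ => (nxp P)^[i] c)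

/-- the closed interfaces with all labels in `E` which surround the gap `g` of the line
`x + y = 0` -/
def loops (P : ℤ × ℤ → Bool) (E : Set (ℤ × ℤ)) (g : ℤ) : Set (Set (ℤ × ℤ)) :=
  {O | (∃ c, O = orbS P c) ∧ O.Finite ∧ (∀ c ∈ O, lab c ∈ E) ∧
    Odd {k : ℤ | k < g ∧ cr k ∈ O}.ncard}

theorem self_mem_orbS (P : ℤ × ℤ → Bool) (c : ℤ × ℤ) : c ∈ orbS P c := ⟨0, rfl⟩

theorem orbS_finite_period {P : ℤ × ℤ → Bool} {c : ℤ × ℤ} (h : (orbS P c).Finite) :
    ∃ p, 0 < p ∧ (nxp P)^[p] c = c := by
  have h1 : ¬ Function.Injective (fun i : ℕ => (nxp P)^[i] c) := fun hinj =>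
    Set.infinite_range_of_injective hinj h
  rw [Function.Injective] at h1
  push Not at h1
  obtain ⟨i, j, hij, hne⟩ := h1
  have key : ∀ i j : ℕ, i < j → (nxp P)^[i] c = (nxp P)^[j] c → ∃ p, 0 < p ∧ (nxp P)^[p] c = c := by
    intro i j hlt he
    refine ⟨j - i, by omega, ?_⟩
    have : (nxp P)^[i] ((nxp P)^[j - i] c) = (nxp P)^[i] c := by
      rw [← Function.iterate_add_apply, show i + (j - i) = j by omega, he]
    exact (nxp_injective P).iterate i this
  rcases lt_or_gt_of_ne hne with hlt | hlt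
  · exact key i j hlt hij
  · exact key j i hlt hij.symm

theorem iter_mul {P : ℤ × ℤ → Bool} {c : ℤ × ℤ} {p : ℕ} (h : (nxp P)^[p] c = c) (m : ℕ) :
    (nxp P)^[m * p] c = c := by
  induction m with
  | zero => simp
  | succ m ih => rw [Nat.succ_mul, Function.iterate_add_apply, h, ih]

theorem orbS_eq {P : ℤ × ℤ → Bool} {c d : ℤ × ℤ} (h : (orbS P c).Finite) (hd : d ∈ orbS P c) :
    orbS P d = orbS P c := by
  obtain ⟨p, hp, hc⟩ := orbS_finite_period h
  obtain ⟨j, rfl⟩ := hd
  ext x
  constructor
  · rintro ⟨i, rfl⟩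
    exact ⟨i + j, by simp only [Function.iterate_add_apply]⟩
  · rintro ⟨i, rfl⟩
    refine ⟨i + (j * p - j), ?_⟩
    simp only
    rw [← Function.iterate_add_apply, show i + (j * p - j) + j = i + j * p by
      have : j ≤ j * p := Nat.le_mul_of_pos_right j hp
      omega, Function.iterate_add_apply, iter_mul hc]

/-- an orbit is closed under the matching above the line -/
theorem closed_up {n : ℕ} [NeZero (2 * n)] {E : Set (ℤ × ℤ)} {P : ℤ × ℤ → Bool} {M : ℕ}
    {rows : ℕ → Fin (2 * n) → Bool} (hA : Agr E P M rows) {c₀ : ℤ × ℤ}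
    (hfin : (orbS P c₀).Finite) (hE : ∀ c ∈ orbS P c₀, lab c ∈ E) {k : ℤ}
    (hk : cr k ∈ orbS P c₀) : cr (cov (runRows rows M (cap n M)) k) ∈ orbS P c₀ := by
  have H := half_data n M rows
  have hO := orbS_eq hfin hk
  rw [← hO] at hfin hE ⊢
  obtain ⟨p, hp, hc⟩ := orbS_finite_period hfin
  have hmem : ∀ i, (nxp P)^[i] (cr k) ∈ orbS P (cr k) := fun i => ⟨i, rfl⟩
  rcases Int.emod_two_eq_zero_or_one k with hk2 | hk2
  · -- upwards
    classical
    have hex : ∃ j, 0 < j ∧ sg ((nxp P)^[j] (cr k)) = 1 := ⟨p, hp, by rw [hc]; exact sg_cr k⟩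
    set j := Nat.find hex with hj
    obtain ⟨hj0, hj1⟩ := Nat.find_spec hex
    rw [← hj] at hj0 hj1
    have hmin : ∀ i, 0 < i → i < j → sg ((nxp P)^[i] (cr k)) ≠ 1 := fun i h1 h2 h3 =>
      Nat.find_min hex h2 ⟨h1, h3⟩
    have hone : sg ((nxp P)^[1] (cr k)) = 2 := by
      have h1 := sg_nx P (cr k)
      rw [sg_cr] at h1
      simp only [Function.iterate_one]
      rcases h1 with ⟨h1, -, -⟩ | ⟨-, h2, -⟩
      · omega
      · exfalso
        have := h2 (by norm_num)
        unfold cr at this
        simp only at this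
        omega
    have hge : ∀ i, 0 < i → i < j → 2 ≤ sg ((nxp P)^[i] (cr k)) := by
      intro i
      induction i with
      | zero => intro h; omega
      | succ i ih =>
        intro _ h2
        rcases Nat.eq_zero_or_pos i with rfl | hi
        · rw [zero_add, hone]
        · have h3 := ih hi (by omega)
          have h4 := hmin (i + 1) (by omega) h2
          rw [Function.iterate_succ_apply'] at h4 ⊢
          rcases sg_nx P ((nxp P)^[i] (cr k)) with ⟨h5, -⟩ | ⟨h5, -⟩ <;> omega
    have hj2 : j ≠ 1 := by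
      intro h
      rw [h, hone] at hj1
      norm_num at hj1
    obtain ⟨i, hi⟩ : ∃ i, j = i + 1 := ⟨j - 1, by omega⟩
    have hlast := hge i (by omega) (by omega)
    have hodd : ((nxp P)^[j] (cr k)).1 % 2 = 0 := by
      rw [hi, Function.iterate_succ_apply'] at hj1 ⊢
      rcases sg_nx P ((nxp P)^[i] (cr k)) with ⟨h5, h6, h7⟩ | ⟨h5, h6, h7⟩
      · omega
      · exact h7 (by omega)
    have he := eq_cr hj1
    have h1 := arc_match hA hk2 (k' := ((nxp P)^[j] (cr k)).1 - 1) (by omega) j hge
      (fun i _ => hE _ (hmem i)) he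
    rw [h1, ← he]
    exact hmem j
  · -- downwards
    classical
    have hex : ∃ j, 0 < j ∧ sg ((nxp P)^[p - j] (cr k)) = 1 :=
      ⟨p, hp, by rw [Nat.sub_self]; exact sg_cr k⟩
    set j := Nat.find hex with hj
    obtain ⟨hj0, hj1⟩ := Nat.find_spec hex
    rw [← hj] at hj0 hj1
    have hjp : j ≤ p := Nat.find_min' hex ⟨hp, by rw [Nat.sub_self]; exact sg_cr k⟩
    have hmin : ∀ i, 0 < i → i < j → sg ((nxp P)^[p - i] (cr k)) ≠ 1 := fun i h1 h2 h3 =>
      Nat.find_min hex h2 ⟨h1, h3⟩
    have hstep : ∀ i, i < p → nxp P ((nxp P)^[p - (i + 1)] (cr k)) = (nxp P)^[p - i] (cr k) := by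
      intro i hi
      rw [← Function.iterate_succ_apply' (nxp P), show (p - (i + 1)).succ = p - i by omega]
    have hone : sg ((nxp P)^[p - 1] (cr k)) = 2 := by
      have h1 := hstep 0 hp
      rw [zero_add, Nat.sub_zero, hc] at h1
      rcases sg_nx P ((nxp P)^[p - 1] (cr k)) with ⟨h5, h6, h7⟩ | ⟨h5, h6, h7⟩
      · rw [h1, sg_cr] at h5
        rw [h1] at h7
        have := h7 (by omega)
        unfold cr at this
        simp only at this
        omega
      · rw [h1, sg_cr] at h5
        omega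
    have hge : ∀ i, 0 < i → i < j → 2 ≤ sg ((nxp P)^[p - i] (cr k)) := by
      intro i
      induction i with
      | zero => intro h; omega
      | succ i ih =>
        intro _ h2
        rcases Nat.eq_zero_or_pos i with rfl | hi
        · rw [zero_add, hone]
        · have h3 := ih hi (by omega)
          have h4 := hmin (i + 1) (by omega) h2
          rw [← hstep i (by omega)] at h3
          rcases sg_nx P ((nxp P)^[p - (i + 1)] (cr k)) with ⟨h5, -⟩ | ⟨h5, -⟩ <;> omega
    have hj2 : j ≠ 1 := by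
      intro h
      rw [h, hone] at hj1
      norm_num at hj1
    obtain ⟨i, hi⟩ : ∃ i, j = i + 1 := ⟨j - 1, by omega⟩
    have hlast := hge i (by omega) (by omega)
    have heven : ((nxp P)^[p - j] (cr k)).1 % 2 = 1 := by
      rw [← hstep i (by omega)] at hlast
      rw [← hi] at hlast
      rcases sg_nx P ((nxp P)^[p - j] (cr k)) with ⟨h5, h6, h7⟩ | ⟨h5, h6, h7⟩
      · exact h6 (by omega)
      · omega
    have he := eq_cr hj1
    set k' : ℤ := ((nxp P)^[p - j] (cr k)).1 - 1 with hk'
    have hit : ∀ i, i ≤ j → (nxp P)^[i] (cr k') = (nxp P)^[p - (j - i)] (cr k) := by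
      intro i hi
      rw [← he, ← Function.iterate_add_apply, show i + (p - j) = p - (j - i) by omega]
    have h1 : cov (runRows rows M (cap n M)) k' = k := by
      refine arc_match hA (by omega) hk2 j ?_ ?_ ?_
      · intro i h1 h2
        rw [hit i h2.le]
        exact hge (j - i) (by omega) (by omega)
      · intro i h2
        rw [hit i h2.le]
        exact hE _ (hmem _)
      · rw [hit j le_rfl, Nat.sub_self, Nat.sub_zero, hc]
    have h2 : cov (runRows rows M (cap n M)) k = k' := by rw [← h1, H.inv]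
    rw [h2, ← he]
    exact hmem _

/-! ### reflection -/

/-- reflection of the corners -/
def rc (c : ℤ × ℤ) : ℤ × ℤ := (1 - c.2, 1 - c.1)

/-- reflection of the labels -/
def rl (e : ℤ × ℤ) : ℤ × ℤ := (-e.2, -e.1)

theorem rc_rc (c : ℤ × ℤ) : rc (rc c) = c := by unfold rc; simp

theorem rl_rl (c : ℤ × ℤ) : rl (rl c) = c := by unfold rl; simp

theorem rc_cr (k : ℤ) : rc (cr k) = cr k := by
  unfold rc cr
  refine Prod.ext ?_ ?_ <;> simp only <;> ring

theorem rc_nxp (P : ℤ × ℤ → Bool) (c : ℤ × ℤ) :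
    lab (rc (nxp P c)) = rl (lab c) ∧ nxp (fun e => P (rl e)) (rc (nxp P c)) = rc c := by
  have key : (lab (rc (nxC c)) = rl (lab c) ∧ lab (rc (nxO c)) = rl (lab c)) ∧
      nxC (rc (nxC c)) = rc c ∧ nxO (rc (nxO c)) = rc c := by
    obtain ⟨a, b⟩ := c
    have h1 : a % 2 = 0 ∨ a % 2 = 1 := by omega
    have h2 : b % 2 = 0 ∨ b % 2 = 1 := by omega
    unfold lab nxC nxO rc rl
    rcases h1 with h1 | h1 <;> rcases h2 with h2 | h2 <;>
      simp only [h1, h2, if_true, if_false, one_ne_zero] <;>
      refine ⟨⟨?_, ?_⟩, ?_, ?_⟩ <;>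
      split_ifs <;> first | (exfalso; omega) | (refine Prod.ext ?_ ?_ <;> simp only <;> omega)
  by_cases h : P (lab c) = true
  · have e1 : nxp P c = nxO c := by unfold nxp; rw [if_pos h]
    rw [e1]
    refine ⟨key.1.2, ?_⟩
    unfold nxp
    rw [key.1.2]
    simp only [rl_rl]
    rw [if_pos h]
    exact key.2.2
  · have e1 : nxp P c = nxC c := by unfold nxp; rw [if_neg h]
    rw [e1]
    refine ⟨key.1.1, ?_⟩
    unfold nxp
    rw [key.1.1]
    simp only [rl_rl]
    rw [if_neg h]
    exact key.2.1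

/-- the reflected orbit -/
theorem orbS_reflect {P : ℤ × ℤ → Bool} {c : ℤ × ℤ} (h : (orbS P c).Finite) :
    orbS (fun e => P (rl e)) (rc c) = rc '' orbS P c := by
  obtain ⟨p, hp, hc⟩ := orbS_finite_period h
  have hstep : ∀ d, nxp (fun e => P (rl e)) (rc (nxp P d)) = rc d := fun d => (rc_nxp P d).2
  have hback : ∀ i j : ℕ, i ≤ j →
      (nxp (fun e => P (rl e)))^[i] (rc ((nxp P)^[j] c)) = rc ((nxp P)^[j - i] c) := by
    intro i
    induction i with
    | zero => intro j _; rfl
    | succ i ih =>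
      intro j hj
      rw [Function.iterate_succ_apply', ih j (by omega), show j - i = (j - (i + 1)) + 1 by omega,
        Function.iterate_succ_apply', hstep]
  ext x
  constructor
  · rintro ⟨i, rfl⟩
    refine ⟨(nxp P)^[i * p - i] c, ⟨_, rfl⟩, ?_⟩
    have h1 := hback i (i * p) (Nat.le_mul_of_pos_right i hp)
    rw [iter_mul hc] at h1
    exact h1.symm
  · rintro ⟨y, ⟨j, rfl⟩, rfl⟩
    refine ⟨j * p - j, ?_⟩
    have hle : j ≤ j * p := Nat.le_mul_of_pos_right j hp
    have h1 := hback (j * p - j) (j * p) (by omega)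
    rw [iter_mul hc] at h1
    simp only
    rw [h1, show j * p - (j * p - j) = j by omega]

theorem closed_dn {n : ℕ} [NeZero (2 * n)] {E : Set (ℤ × ℤ)} {P : ℤ × ℤ → Bool} {M : ℕ}
    {rows : ℕ → Fin (2 * n) → Bool} (hA : Agr (rl '' E) (fun e => P (rl e)) M rows) {c₀ : ℤ × ℤ}
    (hfin : (orbS P c₀).Finite) (hE : ∀ c ∈ orbS P c₀, lab c ∈ E) {k : ℤ}
    (hk : cr k ∈ orbS P c₀) : cr (cov (runRows rows M (cap n M)) k) ∈ orbS P c₀ := by
  have h1 := orbS_reflect hfin
  have hmem : ∀ k, cr k ∈ orbS (fun e => P (rl e)) (rc c₀) ↔ cr k ∈ orbS P c₀ := by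
    intro k
    rw [h1]
    constructor
    · rintro ⟨x, hx, hxk⟩
      have : x = cr k := by rw [← rc_rc x, hxk, rc_cr]
      rw [← this]; exact hx
    · intro h
      exact ⟨cr k, h, rc_cr k⟩
  rw [← hmem]
  refine closed_up hA (by rw [h1]; exact hfin.image _) ?_ ((hmem k).2 hk)
  rw [h1]
  rintro _ ⟨x, hx, rfl⟩
  -- `x` is the successor of a corner of the orbit
  obtain ⟨p, hp, hc⟩ := orbS_finite_period hfin
  obtain ⟨j, rfl⟩ := hx
  have h2 : (nxp P)^[j] c₀ = nxp P ((nxp P)^[j + p - 1] c₀) := by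
    rw [← Function.iterate_succ_apply' (nxp P), show (j + p - 1).succ = j + p by omega,
      Function.iterate_add_apply, hc]
  simp only
  rw [h2, (rc_nxp P _).1]
  exact ⟨_, hE _ ⟨_, rfl⟩, rfl⟩

/-! ### counting the loops -/

theorem exists_loop {f g : ℤ → ℤ} (hf : ∀ x, f (f x) = x) (hg : ∀ x, g (g x) = x) (c : ℤ) :
    ∀ (N : ℕ) (S : Finset ℤ), S.card ≤ N → (∀ k ∈ S, f k ∈ S) → (∀ k ∈ S, g k ∈ S) →
        Odd (S.filter (fun a => a < c)).card → ∃ O ∈ loopsAround f g c, O ⊆ (S : Set ℤ) := by
  classical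
  intro N
  induction N with
  | zero =>
    intro S hS _ _ hodd
    have : S = ∅ := Finset.card_eq_zero.1 (by omega)
    subst this
    simp at hodd
  | succ N ih =>
    intro S hS h1 h2 hodd
    rcases S.eq_empty_or_nonempty with rfl | ⟨x, hx⟩
    · simp at hodd
    · set O : Finset ℤ := S.filter (fun y => Loop f g x y) with hO
      have hsub : ∀ y, Loop f g x y → y ∈ S := fun y hy =>
        (by exact_mod_cast (loop_sub hf hg (S := (S : Set ℤ)) (fun k hk => by
          exact_mod_cast h1 k hk) (fun k hk => by exact_mod_cast h2 k hk) hy).1 hx)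
      have hOset : ((O : Finset ℤ) : Set ℤ) = {y | Loop f g x y} := by
        ext y
        rw [hO, Finset.coe_filter]
        simp only [Set.mem_ofPred_eq]
        exact ⟨fun h => h.2, fun h => ⟨hsub y h, h⟩⟩
      by_cases hev : Odd (O.filter (fun a => a < c)).card
      · refine ⟨(O : Set ℤ), ⟨⟨x, hOset⟩, O.finite_toSet, ?_⟩, ?_⟩
        · have e : ((O.filter (fun a => a < c) : Finset ℤ) : Set ℤ) = (O : Set ℤ) ∩ Set.Iio c := by
            ext y
            simp
          rw [← e, Set.ncard_coe_finset]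
          exact hev
        · intro y hy
          exact_mod_cast (Finset.mem_filter.1 (by exact_mod_cast hy)).1
      · have hcard : (S.filter (fun a => a < c)).card = (O.filter (fun a => a < c)).card +
            ((S.filter (fun y => ¬ Loop f g x y)).filter (fun a => a < c)).card := by
          have e2 : (S.filter (fun y => ¬ Loop f g x y)).filter (fun a => a < c) =
              (S.filter (fun a => a < c)).filter (fun y => ¬ Loop f g x y) :=
            Finset.filter_comm _ _ _
          rw [hO, Finset.filter_comm, e2]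
          exact (Finset.card_filter_add_card_filter_not (s := S.filter (fun a => a < c))
            (fun y => Loop f g x y)).symm
        have hodd' : Odd ((S.filter (fun y => ¬ Loop f g x y)).filter (fun a => a < c)).card := by
          rw [hcard] at hodd
          rw [Nat.not_odd_iff_even] at hev
          rcases Nat.even_or_odd
            ((S.filter (fun y => ¬ Loop f g x y)).filter (fun a => a < c)).card with h | h
          · exact absurd (hev.add h) (Nat.not_even_iff_odd.2 hodd)
          · exact h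
        have h3 : (S.filter (fun y => ¬ Loop f g x y)).card < S.card := by
          refine Finset.card_lt_card (Finset.filter_ssubset.2 ⟨x, hx, ?_⟩)
          rw [not_not]
          exact Relation.EqvGen.refl _
        have h4 : ∀ k ∈ S.filter (fun y => ¬ Loop f g x y),
            f k ∈ S.filter (fun y => ¬ Loop f g x y) := by
          intro k hk
          rw [Finset.mem_filter] at hk ⊢
          refine ⟨h1 k hk.1, fun hl => hk.2 ?_⟩
          have := (loop_stable hl).1
          rwa [hf] at this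
        have h5 : ∀ k ∈ S.filter (fun y => ¬ Loop f g x y),
            g k ∈ S.filter (fun y => ¬ Loop f g x y) := by
          intro k hk
          rw [Finset.mem_filter] at hk ⊢
          refine ⟨h2 k hk.1, fun hl => hk.2 ?_⟩
          have := (loop_stable hl).2
          rwa [hg] at this
        obtain ⟨O', hO', hO's⟩ := ih (S.filter (fun y => ¬ Loop f g x y)) (by omega) h4 h5 hodd'
        refine ⟨O', hO', fun y hy => ?_⟩
        have := hO's hy
        exact_mod_cast (Finset.mem_filter.1 (by exact_mod_cast this)).1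

theorem cr_injective : Function.Injective cr := by
  intro a b h
  have := congrArg Prod.fst h
  unfold cr at this
  simp only at this
  omega

/-- **closed interfaces around `g` are at most as many as loops of the glued matchings** -/
theorem loops_le {n : ℕ} [NeZero (2 * n)] {E : Set (ℤ × ℤ)} {P : ℤ × ℤ → Bool} {M M' : ℕ}
    {rows rows' : ℕ → Fin (2 * n) → Bool} (hA : Agr E P M rows)
    (hA' : Agr (rl '' E) (fun e => P (rl e)) M' rows') (g : ℤ)
    (hfin : (loopsAround (cov (runRows rows M (cap n M)))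
      (cov (runRows rows' M' (cap n M'))) g).Finite) :
    (loops P E g).Finite ∧ (loops P E g).ncard ≤
      mc (cov (runRows rows M (cap n M))) (cov (runRows rows' M' (cap n M'))) g := by
  classical
  set τ := cov (runRows rows M (cap n M)) with hτ
  set τ' := cov (runRows rows' M' (cap n M')) with hτ'
  have H := half_data n M rows
  have H' := half_data n M' rows'
  have hex : ∀ O ∈ loops P E g, ∃ Q ∈ loopsAround τ τ' g, Q ⊆ {k | cr k ∈ O} := by
    rintro O ⟨⟨c, rfl⟩, hOfin, hOE, hodd⟩
    have hKfin : {k : ℤ | cr k ∈ orbS P c}.Finite :=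
      hOfin.preimage (cr_injective.injOn)
    obtain ⟨Q, hQ, hQs⟩ := exists_loop H.inv H'.inv g _ hKfin.toFinset le_rfl (fun k hk => by
        rw [Set.Finite.mem_toFinset] at hk ⊢
        exact closed_up hA hOfin hOE hk) (fun k hk => by
        rw [Set.Finite.mem_toFinset] at hk ⊢
        exact closed_dn hA' hOfin hOE hk) (by
        have e : ((hKfin.toFinset.filter (fun a => a < g) : Finset ℤ) : Set ℤ) =
            {k : ℤ | k < g ∧ cr k ∈ orbS P c} := by
          ext y
          simp [and_comm]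
        rw [← e, Set.ncard_coe_finset] at hodd
        exact hodd)
    refine ⟨Q, hQ, fun y hy => ?_⟩
    have := hQs hy
    simpa using this
  choose! F hF hFs using hex
  have hne : ∀ Q ∈ loopsAround τ τ' g, Q.Nonempty := by
    rintro Q ⟨-, -, hodd⟩
    by_contra h
    rw [Set.not_nonempty_iff_eq_empty] at h
    rw [h, Set.empty_inter, Set.ncard_empty] at hodd
    simp at hodd
  have hinj : Set.InjOn F (loops P E g) := by
    intro O hO O' hO' he
    obtain ⟨k, hk⟩ := hne _ (hF O hO)
    have h1 : cr k ∈ O := hFs O hO hk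
    have h2 : cr k ∈ O' := hFs O' hO' (he ▸ hk)
    obtain ⟨⟨c, rfl⟩, hf1, -, -⟩ := hO
    obtain ⟨⟨c', rfl⟩, hf2, -, -⟩ := hO'
    rw [← orbS_eq hf1 h1, ← orbS_eq hf2 h2]
  constructor
  · exact Set.Finite.of_finite_image (hfin.subset (by rintro _ ⟨O, hO, rfl⟩; exact hF O hO)) hinj
  · exact Set.ncard_le_ncard_of_injOn F hF hinj hfin

end Pool.Agent.H19.Q1
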