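import Mathlib
import Pool.Agent.H19.Q1.LoopCyl

/-!
# Exponential moments of the number of closed interfaces around a point of the cylinder
-/

set_option autoImplicit false

open MeasureTheory Filter Topology

namespace Pool.Agent.H19.Q1

open Pool.Agent.H75.Perc (nx nxC nxO lab ty ty_cases pv pv_nx nx_injective)
open Pool.Agent.H65.Perc
open Pool.Agent.H63.Bulk
open Pool.Agent.H51.TA (Loop loopsAround mc loopsAround_finite toPat toPat_t)

/-- the coin of a label -/
def coin (n : ℕ) (e : ℤ × ℤ) : ℤ × ZMod n × Bool :=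
  if e.2 % 2 = 0 then ((e.1 + e.2 - 1) / 2, (((e.1 - 1) / 2 : ℤ) : ZMod n), true)
  else ((e.1 + e.2 - 1) / 2, ((e.1 / 2 : ℤ) : ZMod n), false)

/-- the open labels of the universal cover -/
def Pe (n : ℕ) (η : BConf n) (e : ℤ × ℤ) : Bool := η (coin n e)

/-- the labels of the rows `-L, …, L - 1` -/
def band (L : ℕ) : Set (ℤ × ℤ) :=
  {e | -(L : ℤ) ≤ (e.1 + e.2 - 1) / 2 ∧ (e.1 + e.2 - 1) / 2 < L}

theorem agr_up (n : ℕ) [NeZero n] (η : BConf n) {E : Set (ℤ × ℤ)} {M : ℕ}
    (hE : ∀ e ∈ E, (e.1 + e.2 - 1) / 2 < M) :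
    Agr E (Pe n η) M (extRows (restr n M (up n η))) := by
  intro e he hodd h1
  have hM := hE e he
  refine ⟨hM, ?_⟩
  have h0 : 0 ≤ (e.1 + e.2 - 1) / 2 := by omega
  have hr : ((((e.1 + e.2 - 1) / 2).toNat : ℕ) : ℤ) = (e.1 + e.2 - 1) / 2 :=
    Int.toNat_of_nonneg h0
  rw [extRows_restr n M _ _ (by omega)]
  by_cases h2 : e.2 % 2 = 0
  · rw [if_pos h2, rowsOf_even n _ _ _ ((e.1 - 1) / 2) (by omega), up_val n η _ h0]
    simp only [Pe, coin, if_pos h2]
  · rw [if_neg h2, rowsOf_odd n _ _ _ (e.1 / 2) (by omega), up_val n η _ h0]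
    simp only [Pe, coin, if_neg h2]

theorem agr_dn (n : ℕ) [NeZero n] (η : BConf n) {E : Set (ℤ × ℤ)} {M : ℕ}
    (hE : ∀ e ∈ E, -(M : ℤ) ≤ (e.1 + e.2 - 1) / 2) :
    Agr (rl '' E) (fun e => Pe n η (rl e)) M (extRows (restr n M (dn n η))) := by
  rintro _ ⟨e, he, rfl⟩ hodd h1
  have hM := hE e he
  obtain ⟨a, b⟩ := e
  simp only [rl] at *
  have h0 : 0 ≤ (-b + -a - 1) / 2 := by omega
  have hr : ((((-b + -a - 1) / 2).toNat : ℕ) : ℤ) = (-b + -a - 1) / 2 :=
    Int.toNat_of_nonneg h0
  refine ⟨by omega, ?_⟩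
  rw [extRows_restr n M _ _ (by omega)]
  by_cases h2 : -a % 2 = 0
  · rw [if_pos h2, rowsOf_even n _ _ _ ((-b - 1) / 2) (by omega), dn_true n η _ h0]
    have h3 : ¬ (- -b : ℤ) % 2 = 0 := by omega
    simp only [Pe, coin, if_neg h3]
    congr 3
    · omega
    · congr 2
      omega
  · rw [if_neg h2, rowsOf_odd n _ _ _ (-b / 2) (by omega), dn_false n η _ h0]
    have h3 : (- -b : ℤ) % 2 = 0 := by omega
    simp only [Pe, coin, if_pos h3]
    congr 2
    · omega
    · congr 2
      omega

theorem planar_run {L : ℕ} [NeZero L] (ω : ℕ → Fin L → Bool) (M : ℕ) {s : St (Lab L)}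
    (hs : Planar s) : Planar (runRows ω M s) := by
  induction M generalizing s with
  | zero => exact hs
  | succ M ih => exact ih (planar_rowMap hs _)

/-- number of loops of the two matchings of height `M` -/
noncomputable def mcM (n : ℕ) [NeZero n] (M : ℕ) (g : ℤ) (η : BConf n) : ℕ :=
  mc (cov (runRows (extRows (jres n M η).1) M (cap n M)))
    (cov (runRows (extRows (jres n M η).2) M (cap n M))) g

theorem count_le (n : ℕ) [NeZero n] (η : BConf n) {L M : ℕ} (hLM : L ≤ M) (g : ℤ) :
    (loops (Pe n η) (band L) g).Finite ∧ (loops (Pe n η) (band L) g).ncard ≤ mcM n M g η := by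
  have hfin : (loopsAround (cov (runRows (extRows (restr n M (up n η))) M (cap n M)))
      (cov (runRows (extRows (restr n M (dn n η))) M (cap n M))) g).Finite := by
    have h := loopsAround_finite
      (toPat ⟨_, planar_run (extRows (restr n M (up n η))) M (planar_cap n M)⟩)
      (toPat ⟨_, planar_run (extRows (restr n M (dn n η))) M (planar_cap n M)⟩)
      (Nat.pos_of_ne_zero (NeZero.ne (2 * n))) g
    have e : ∀ z : PX (2 * n), (toPat z).t = cov z.1 := fun z => toPat_t z
    rw [e, e] at h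
    exact h
  refine loops_le (E := band L) (P := Pe n η) (agr_up n η ?_) (agr_dn n η ?_) g hfin
  · rintro e ⟨-, h⟩
    have : (L : ℤ) ≤ M := by exact_mod_cast hLM
    omega
  · rintro e ⟨h, -⟩
    have : (L : ℤ) ≤ M := by exact_mod_cast hLM
    omega

theorem integrable_jres {n : ℕ} [NeZero n] (M : ℕ)
    (A : (Fin M → Fin (2 * n) → Bool) × (Fin M → Fin (2 * n) → Bool) → ℝ) :
    Integrable (fun η => A (jres n M η)) (bulkMeasure n) := by
  have h1 : Measurable (fun η => A (jres n M η)) :=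
    (measurable_of_finite A).comp (measurable_jres n M)
  obtain ⟨C, hC⟩ := (Set.finite_range (fun x => ‖A x‖)).bddAbove
  exact Integrable.of_bound h1.aestronglyMeasurable C
    (Filter.Eventually.of_forall fun η => hC ⟨jres n M η, rfl⟩)

/-- **moments in the bi-infinite cylinder** -/
theorem moment_bulk : ∃ C : ℝ, 0 < C ∧ ∀ (n : ℕ) [NeZero n] (g : ℤ) (W : ℝ), 1 ≤ W →
    ∀ (f : BConf n → ℝ), Integrable f (bulkMeasure n) → ∀ M₀ : ℕ,
      (∀ M, M₀ ≤ M → ∀ η, f η ≤ W ^ mcM n M g η) →
      ∫ η, f η ∂(bulkMeasure n) ≤ C ^ (W - 1) * (n : ℝ) ^ (5 / 48 * (W - 1)) := by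
  obtain ⟨C, hC, h⟩ := FF_bound
  refine ⟨C, hC, fun n _ g W hW f hf M₀ hM => ?_⟩
  obtain ⟨Ψ, hlim, -⟩ := exists_Psi n
  have h1 := h n Ψ hlim ⟨cap n 0, planar_cap n 0⟩ g W hW
  refine le_trans ?_ h1
  have h2 := tendsto_states n hlim (fun s s' => W ^ mc (cov s) (cov s') g)
  have e : ∀ z : PX (2 * n), (toPat z).t = cov z.1 := fun z => toPat_t z
  have h3 : FF n Ψ g W = Ψ (fun x : PX (2 * n) => Ψ (fun y : PX (2 * n) =>
      W ^ mc (cov x.1) (cov y.1) g)) := by
    unfold FF
    simp only [e]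
  rw [h3]
  refine ge_of_tendsto h2 ?_
  filter_upwards [eventually_ge_atTop M₀] with M hMM
  refine integral_mono hf ?_ (fun η => hM M hMM η)
  exact integrable_jres M (fun x => W ^ mc (cov (runRows (extRows x.1) M (cap n M)))
    (cov (runRows (extRows x.2) M (cap n M))) g)

/-! ### transfer to finitely many coins -/

open Classical in
/-- the law of finitely many coins -/
theorem measure_coins {n : ℕ} {α : Type*} (E : Finset α) (ι : α → ℤ × ZMod n × Bool)
    (hι : Set.InjOn ι E) (ω : Finset α) (hω : ω ⊆ E) :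
    (bulkMeasure n) {η | E.filter (fun e => η (ι e) = true) = ω} = (1 / 2) ^ E.card := by
  have hset : {η : BConf n | E.filter (fun e => η (ι e) = true) = ω} =
      Set.pi (↑(E.image ι)) (fun i => {decide (i ∈ ω.image ι)}) := by
    ext η
    simp only [Set.mem_ofPred_eq, Set.mem_pi, Finset.coe_image, Set.mem_image, Finset.mem_coe,
      forall_exists_index, and_imp, forall_apply_eq_imp_iff₂, Set.mem_singleton_iff]
    constructor
    · rintro rfl e he
      by_cases h : η (ι e) = true
      · rw [h]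
        symm
        rw [decide_eq_true_eq, Finset.mem_image]
        exact ⟨e, Finset.mem_filter.2 ⟨he, h⟩, rfl⟩
      · rw [Bool.not_eq_true] at h
        rw [h]
        symm
        rw [decide_eq_false_iff_not, Finset.mem_image]
        rintro ⟨e', he', hee⟩
        rw [Finset.mem_filter] at he'
        rw [hee, h] at he'
        exact absurd he'.2 (by simp)
    · intro h
      ext e
      rw [Finset.mem_filter]
      constructor
      · rintro ⟨he, h1⟩
        have h2 := h e he
        rw [h1] at h2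
        have h3 := of_decide_eq_true h2.symm
        obtain ⟨e', he', hee⟩ := Finset.mem_image.1 h3
        have := hι (hω he') he hee
        rw [← this]; exact he'
      · intro he
        refine ⟨hω he, ?_⟩
        rw [h e (hω he), decide_eq_true_eq]
        exact Finset.mem_image_of_mem _ he
  rw [hset, bulkMeasure, Measure.infinitePi_pi _ (fun i _ => MeasurableSet.singleton _)]
  have h1 : ∀ b : Bool, ((PMF.uniformOfFintype Bool).toMeasure) {b} = 1 / 2 := by
    intro b
    rw [PMF.toMeasure_apply_singleton _ _ (MeasurableSet.singleton _)]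
    simp
  simp only [h1]
  rw [Finset.prod_const, Finset.card_image_of_injOn hι]

open Classical in
theorem measurable_coins {n : ℕ} {α : Type*} (E : Finset α) (ι : α → ℤ × ZMod n × Bool)
    (ω : Finset α) : MeasurableSet {η : BConf n | E.filter (fun e => η (ι e) = true) = ω} := by
  have h2 : {η : BConf n | E.filter (fun e => η (ι e) = true) = ω} =
      (⋂ e ∈ E, {η : BConf n | η (ι e) = true ↔ e ∈ ω}) ∩ {_η | ω ⊆ E} := by
    ext η
    simp only [Set.mem_ofPred_eq, Set.mem_iInter, Set.mem_inter_iff, Finset.ext_iff,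
      Finset.mem_filter]
    constructor
    · intro h
      refine ⟨fun e he => ?_, fun e he => ((h e).2 he).1⟩
      rw [← h e]
      exact ⟨fun h => ⟨he, h⟩, fun h => h.2⟩
    · rintro ⟨h1, h2⟩ e
      constructor
      · rintro ⟨h3, h4⟩
        exact (h1 e h3).1 h4
      · intro h3
        exact ⟨h2 h3, (h1 e (h2 h3)).2 h3⟩
  rw [h2]
  refine MeasurableSet.inter ?_ (MeasurableSet.const _)
  refine Finset.measurableSet_biInter _ fun e _ => ?_
  have h3 : MeasurableSet {η : BConf n | η (ι e) = true} :=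
    measurableSet_eq_fun (measurable_pi_apply _) measurable_const
  by_cases h4 : e ∈ ω
  · have h5 : {η : BConf n | η (ι e) = true ↔ e ∈ ω} = {η : BConf n | η (ι e) = true} := by
      ext η
      simp [h4]
    rw [h5]
    exact h3
  · have h5 : {η : BConf n | η (ι e) = true ↔ e ∈ ω} = {η : BConf n | η (ι e) = true}ᶜ := by
      ext η
      simp [h4]
    rw [h5]
    exact h3.compl

/-- **TRANSFER**: a function of finitely many coins which is at most `W` to the number of closed
interfaces around the gap `g` -/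
theorem moment_transfer : ∃ C : ℝ, 0 < C ∧ ∀ (n : ℕ) [NeZero n] (g : ℤ) (W : ℝ), 1 ≤ W →
    ∀ {α : Type} (E : Finset α) (ι : α → ℤ × ZMod n × Bool), Set.InjOn ι E → ∀ (L : ℕ)
      (F : Finset α → ℝ),
      (∀ ω ⊆ E, ∀ η : BConf n, (∀ e ∈ E, (η (ι e) = true ↔ e ∈ ω)) →
        F ω ≤ W ^ (loops (Pe n η) (band L) g).ncard) →
      ∑ ω ∈ E.powerset, (1 / 2 : ℝ) ^ E.card * F ω ≤
        C ^ (W - 1) * (n : ℝ) ^ (5 / 48 * (W - 1)) := by
  classical
  obtain ⟨C, hC, h⟩ := moment_bulk
  refine ⟨C, hC, fun n _ g W hW α E ι hι L F hF => ?_⟩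
  set f : BConf n → ℝ := fun η => F (E.filter (fun e => η (ι e) = true)) with hf
  have hfs : f = fun η => ∑ ω ∈ E.powerset,
      Set.indicator {η : BConf n | E.filter (fun e => η (ι e) = true) = ω} (fun _ => F ω) η := by
    funext η
    rw [Finset.sum_eq_single (E.filter (fun e => η (ι e) = true))]
    · rw [Set.indicator_of_mem (by exact rfl)]
    · intro ω _ hne
      rw [Set.indicator_of_notMem (by exact fun h => hne h.symm)]
    · intro h
      exact absurd (Finset.mem_powerset.2 (Finset.filter_subset _ _)) h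
  have hint : ∀ ω ∈ E.powerset, Integrable (Set.indicator
      {η : BConf n | E.filter (fun e => η (ι e) = true) = ω} (fun _ => F ω)) (bulkMeasure n) :=
    fun ω _ => (integrable_const _).indicator (measurable_coins E ι ω)
  have h1 : ∫ η, f η ∂(bulkMeasure n) = ∑ ω ∈ E.powerset, (1 / 2 : ℝ) ^ E.card * F ω := by
    rw [hfs, integral_finsetSum _ hint]
    refine Finset.sum_congr rfl fun ω hω => ?_
    rw [integral_indicator_const _ (measurable_coins E ι ω), smul_eq_mul, Measure.real,
      measure_coins E ι hι ω (Finset.mem_powerset.1 hω)]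
    simp
  rw [← h1]
  refine h n g W hW f ?_ L ?_
  · rw [hfs]
    exact integrable_finsetSum _ hint
  · intro M hM η
    refine (hF _ (Finset.filter_subset _ _) η (fun e he => ?_)).trans ?_
    · rw [Finset.mem_filter]
      exact ⟨fun h => ⟨he, h⟩, fun h => h.2⟩
    · exact pow_le_pow_right₀ hW (count_le n η hM g).2

/-! ### boxes of the plane -/

theorem coin_inj {n : ℕ} {o : ℤ} {r : ℕ} (hr : r < n) {E : Set (ℤ × ℤ)}
    (hodd : ∀ e ∈ E, (e.1 + e.2) % 2 = 1) (hbox : ∀ e ∈ E, 2 * o ≤ e.1 ∧ e.1 ≤ 2 * o + 2 * r + 1) :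
    Set.InjOn (coin n) E := by
  intro e he e' he' h
  have h1 := hbox e he
  have h1' := hbox e' he'
  have h2 := hodd e he
  have h2' := hodd e' he'
  have key : ∀ x x' : ℤ, o ≤ x → x ≤ o + r → o ≤ x' → x' ≤ o + r →
      ((x : ℤ) : ZMod n) = ((x' : ℤ) : ZMod n) → x = x' := by
    intro x x' a1 a2 a3 a4 hx
    rw [ZMod.intCast_eq_intCast_iff_dvd_sub] at hx
    obtain ⟨m, hm⟩ := hx
    have hn : (r : ℤ) < n := by exact_mod_cast hr
    have hm0 : m = 0 := by
      by_contra hne
      rcases lt_or_gt_of_ne hne with h | h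
      · have : (n : ℤ) * m ≤ -n := by nlinarith
        omega
      · have : (n : ℤ) ≤ n * m := by nlinarith
        omega
    rw [hm0, mul_zero] at hm
    omega
  unfold coin at h
  by_cases c1 : e.2 % 2 = 0 <;> by_cases c2 : e'.2 % 2 = 0
  · rw [if_pos c1, if_pos c2] at h
    simp only [Prod.mk.injEq, and_true] at h
    have := key _ _ (by omega) (by omega) (by omega) (by omega) h.2
    refine Prod.ext ?_ ?_ <;> omega
  · rw [if_pos c1, if_neg c2] at h
    simp at h
  · rw [if_neg c1, if_pos c2] at h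
    simp at h
  · rw [if_neg c1, if_neg c2] at h
    simp only [Prod.mk.injEq, and_true] at h
    have := key _ _ (by omega) (by omega) (by omega) (by omega) h.2
    refine Prod.ext ?_ ?_ <;> omega

/-- the closed interfaces depend only on the labels of `E` -/
theorem loops_congr {P P' : ℤ × ℤ → Bool} {E E' : Set (ℤ × ℤ)} (hEE : E ⊆ E')
    (h : ∀ e ∈ E, (e.1 + e.2) % 2 = 1 → P e = P' e) (g : ℤ) : loops P E g ⊆ loops P' E' g := by
  rintro O ⟨⟨c, rfl⟩, hfin, hE, hodd⟩
  have key : ∀ i : ℕ, (nxp P)^[i] c = (nxp P')^[i] c := by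
    intro i
    induction i with
    | zero => rfl
    | succ i ih =>
      rw [Function.iterate_succ_apply', Function.iterate_succ_apply', ← ih]
      have h1 : P (lab ((nxp P)^[i] c)) = P' (lab ((nxp P)^[i] c)) :=
        h _ (hE _ ⟨i, rfl⟩) (lab_odd _)
      unfold nxp at h1 ⊢
      rw [h1]
  have e : orbS P c = orbS P' c := by
    unfold orbS
    congr 1
    funext i
    exact key i
  refine ⟨⟨c, e⟩, hfin, fun x hx => hEE (hE x hx), hodd⟩

/-- the corner number `k` of the line number `s` -/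
def crs (s k : ℤ) : ℤ × ℤ := (k + s + 1, -k + s)

/-- the closed interfaces with all labels in `E` which surround the gap `g` of the line
`a + b = 2 s + 1` of the corner lattice: vertex `((g+s)/2, (s-g)/2)` if `g + s` is even, otherwise a
face -/
def loopsAt (P : ℤ × ℤ → Bool) (E : Set (ℤ × ℤ)) (s g : ℤ) : Set (Set (ℤ × ℤ)) :=
  {O | (∃ c, O = orbS P c) ∧ O.Finite ∧ (∀ c ∈ O, lab c ∈ E) ∧
    Odd {k : ℤ | k < g ∧ crs s k ∈ O}.ncard}

end Pool.Agent.H19.Q1
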