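import Mathlib
import Pool.Agent.H19.Q1.LoopBulk
import Pool.Agent.H75.Perc.Prob

/-!
# Exponential moments of the number of closed interfaces around a point of the plane
-/

set_option autoImplicit false

open MeasureTheory Filter Topology

namespace Pool.Agent.H19.Q1

open Pool.Agent.H75.Perc (nx nxC nxO lab ty ty_cases pv pv_nx nx_injective)
open Pool.Agent.H65.Perc
open Pool.Agent.H63.Bulk

/-- The closed interfaces (orbits of `nx ω`) all labels of which are in `E` and which surround the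
gap `g` of the antidiagonal through the vertex `v`: the gap `0` is the vertex `v`, the gap `1` is the
face to the lower right of `v`, and so on. -/
def around (ω : Finset (ℤ × ℤ)) (E : Set (ℤ × ℤ)) (v : ℤ × ℤ) (g : ℤ) : Set (Set (ℤ × ℤ)) :=
  {O | (∃ c, O = Set.range (fun i : ℕ => (nx ω)^[i] c)) ∧ O.Finite ∧ (∀ c ∈ O, lab c ∈ E) ∧
    Odd {k : ℤ | k < g ∧ (2 * v.1 + k + 1, 2 * v.2 - k) ∈ O}.ncard}

/-- translation by twice a vertex -/
def tr (v c : ℤ × ℤ) : ℤ × ℤ := (c.1 - 2 * v.1, c.2 - 2 * v.2)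

/-- the inverse translation -/
def rt (v c : ℤ × ℤ) : ℤ × ℤ := (c.1 + 2 * v.1, c.2 + 2 * v.2)

theorem rt_tr (v c : ℤ × ℤ) : rt v (tr v c) = c := by unfold rt tr; simp

theorem tr_rt (v c : ℤ × ℤ) : tr v (rt v c) = c := by unfold rt tr; simp

theorem tr_injective (v : ℤ × ℤ) : Function.Injective (tr v) :=
  Function.LeftInverse.injective (rt_tr v)

theorem lab_tr (v c : ℤ × ℤ) : lab (tr v c) = tr v (lab c) ∧ nxC (tr v c) = tr v (nxC c) ∧
    nxO (tr v c) = tr v (nxO c) := by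
  obtain ⟨a, b⟩ := c
  obtain ⟨x, y⟩ := v
  have h1 : a % 2 = 0 ∨ a % 2 = 1 := by omega
  have h2 : b % 2 = 0 ∨ b % 2 = 1 := by omega
  have h3 : (a - 2 * x) % 2 = a % 2 := by omega
  have h4 : (b - 2 * y) % 2 = b % 2 := by omega
  unfold lab nxC nxO tr
  simp only [h3, h4]
  rcases h1 with h1 | h1 <;> rcases h2 with h2 | h2 <;>
    simp only [h1, h2, if_true, if_false, one_ne_zero] <;>
    refine ⟨?_, ?_, ?_⟩ <;>
    first | trivial | (refine Prod.ext ?_ ?_ <;> simp only <;> omega)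

theorem nxp_tr (P : ℤ × ℤ → Bool) (v c : ℤ × ℤ) :
    nxp (fun e => P (rt v e)) (tr v c) = tr v (nxp P c) := by
  obtain ⟨h1, h2, h3⟩ := lab_tr v c
  unfold nxp
  rw [h1, h2, h3]
  simp only [rt_tr]
  split_ifs <;> rfl

theorem orbS_tr (P : ℤ × ℤ → Bool) (v c : ℤ × ℤ) :
    orbS (fun e => P (rt v e)) (tr v c) = tr v '' orbS P c := by
  have h : ∀ i : ℕ, (nxp (fun e => P (rt v e)))^[i] (tr v c) = tr v ((nxp P)^[i] c) := by
    intro i
    induction i with
    | zero => rfl
    | succ i ih => rw [Function.iterate_succ_apply', ih, nxp_tr, Function.iterate_succ_apply']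
  unfold orbS
  rw [← Set.range_comp]
  congr 1
  funext i
  exact h i

theorem tr_crs (v : ℤ × ℤ) (k : ℤ) : tr v (2 * v.1 + k + 1, 2 * v.2 - k) = cr k := by
  unfold tr cr
  refine Prod.ext ?_ ?_ <;> simp only <;> ring

/-- comparison with the universal cover of the cylinder -/
theorem around_le (n : ℕ) [NeZero n] {ω E : Finset (ℤ × ℤ)} (v : ℤ × ℤ) (g : ℤ) {L : ℕ}
    (hL : ∀ e ∈ E, tr v e ∈ band L) (η : BConf n)
    (hη : ∀ e ∈ E, (η (coin n (tr v e)) = true ↔ e ∈ ω)) :
    (around ω E v g).ncard ≤ (loops (Pe n η) (band L) g).ncard := by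
  set P : ℤ × ℤ → Bool := fun e => decide (e ∈ ω) with hP
  have hmap : ∀ O ∈ around ω E v g, tr v '' O ∈ loops (Pe n η) (band L) g := by
    rintro O ⟨⟨c, rfl⟩, hfin, hE, hodd⟩
    have h0 : Set.range (fun i : ℕ => (nx ω)^[i] c) = orbS P c := by
      unfold orbS
      rw [nx_eq_nxp]
    rw [h0] at hfin hE hodd ⊢
    have h1 : tr v '' orbS P c ∈ loops (fun e => P (rt v e)) (tr v '' (E : Set (ℤ × ℤ))) g := by
      refine ⟨⟨tr v c, (orbS_tr P v c).symm⟩, hfin.image _, ?_, ?_⟩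
      · rintro _ ⟨x, hx, rfl⟩
        rw [(lab_tr v x).1]
        exact ⟨_, hE x hx, rfl⟩
      · have h2 : {k : ℤ | k < g ∧ cr k ∈ tr v '' orbS P c} =
            {k : ℤ | k < g ∧ (2 * v.1 + k + 1, 2 * v.2 - k) ∈ orbS P c} := by
          ext k
          simp only [Set.mem_ofPred_eq, ← tr_crs v k, (tr_injective v).mem_set_image]
        rw [h2]
        exact hodd
    refine loops_congr ?_ ?_ g h1
    · rintro _ ⟨e, he, rfl⟩
      exact hL e he
    · rintro _ ⟨e, he, rfl⟩ _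
      simp only [hP, rt_tr, Pe]
      have h2 := hη e he
      by_cases h3 : e ∈ ω
      · rw [h2.2 h3]; simpa using h3
      · have h4 : η (coin n (tr v e)) = false := by
          rw [← Bool.not_eq_true]
          exact fun h => h3 (h2.1 h)
        rw [h4]; simpa using h3
  exact Set.ncard_le_ncard_of_injOn (fun O => tr v '' O) hmap
    ((Set.image_injective.2 (tr_injective v)).injOn) (count_le n η le_rfl g).1

/-- **Exponential moments of the number of closed interfaces around a point of the plane.** -/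
theorem around_moment : ∃ C : ℝ, 0 < C ∧ ∀ (R : ℕ) (W : ℝ), 1 ≤ W → ∀ (E : Finset (ℤ × ℤ)) (o : ℤ),
    (∀ e ∈ E, (e.1 + e.2) % 2 = 1) → (∀ e ∈ E, 2 * o ≤ e.1 ∧ e.1 ≤ 2 * o + 2 * R + 1) →
    ∀ (v : ℤ × ℤ) (g : ℤ), ∑ ω ∈ E.powerset, (1 / 2 : ℝ) ^ E.card * W ^ (around ω E v g).ncard ≤
      C ^ (W - 1) * ((R : ℝ) + 1) ^ (5 / 48 * (W - 1)) := by
  obtain ⟨C, hC, h⟩ := moment_transfer
  refine ⟨C, hC, fun R W hW E o hodd hbox v g => ?_⟩
  have hinj : Set.InjOn (fun e => coin (R + 1) (tr v e)) (E : Set (ℤ × ℤ)) := by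
    intro e he e' he' hee
    have h1 := coin_inj (n := R + 1) (o := o - v.1) (r := R) (Nat.lt_succ_self R)
      (E := tr v '' (E : Set (ℤ × ℤ))) (by
        rintro _ ⟨x, hx, rfl⟩
        have := hodd x hx
        unfold tr
        simp only
        omega) (by
        rintro _ ⟨x, hx, rfl⟩
        have := hbox x hx
        unfold tr
        simp only
        omega)
    exact tr_injective v (h1 ⟨e, he, rfl⟩ ⟨e', he', rfl⟩ hee)
  obtain ⟨L, hL⟩ : ∃ L : ℕ, ∀ e ∈ E, tr v e ∈ band L := by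
    refine ⟨E.sup (fun e => ((tr v e).1 + (tr v e).2 - 1).natAbs) + 1, fun e he => ?_⟩
    have h1 : ((tr v e).1 + (tr v e).2 - 1).natAbs ≤
        E.sup (fun e => ((tr v e).1 + (tr v e).2 - 1).natAbs) :=
      Finset.le_sup (f := fun e => ((tr v e).1 + (tr v e).2 - 1).natAbs) he
    unfold band
    simp only [Set.mem_ofPred_eq]
    push_cast
    generalize E.sup (fun e => ((tr v e).1 + (tr v e).2 - 1).natAbs) = m at h1
    omega
  have h2 := h (R + 1) g W hW E (fun e => coin (R + 1) (tr v e)) hinj L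
    (fun ω => W ^ (around ω E v g).ncard) (fun ω hω η hη =>
      pow_le_pow_right₀ hW (around_le (R + 1) v g hL η hη))
  push_cast at h2
  exact h2

end Pool.Agent.H19.Q1
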